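import Mathlib

namespace Pool.Agent.Results.MP_a6d20f_an.NoAcceleration

open Filter Topology Real

/-- scalar `L`-smooth `μ`-strongly convex functions -/
def Cls (μ L : ℝ) (f : ℝ → ℝ) : Prop := Differentiable ℝ f ∧ ∀ x y, x ≠ y →
  μ ≤ (deriv f x - deriv f y) / (x - y) ∧ (deriv f x - deriv f y) / (x - y) ≤ L

/-- heavy-ball iterates -/
def HB (γ β : ℝ) (f : ℝ → ℝ) (x : ℕ → ℝ) : Prop :=
  ∀ t, x (t + 2) = (1 + β) * x (t + 1) - β * x t - γ * deriv f (x (t + 1))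

/-- slow convergence -/
def Slow (μ γ β r : ℝ) : Prop := ∃ f xs x, Cls μ 1 f ∧ (∀ y, f xs ≤ f y) ∧ HB γ β f x ∧
  ∃ᶠ t in atTop, r ^ t ≤ |x t - xs|

theorem quad {μ γ β r a : ℝ} (h0 : 0 ≤ μ) (h1 : μ ≤ a) (h2 : a ≤ 1) (x : ℕ → ℝ)
    (hx : ∀ t, x (t + 2) = (1 + β - γ * a) * x (t + 1) - β * x t)
    (h : ∃ᶠ t in atTop, r ^ t ≤ |x t|) : Slow μ γ β r := by
  have d : ∀ y : ℝ, deriv (fun y : ℝ => a / 2 * y ^ 2) y = a * y := fun y => by
    rw [((hasDerivAt_pow 2 y).const_mul (a / 2)).deriv]; simp; ring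
  refine ⟨fun y => a / 2 * y ^ 2, 0, x, ⟨by fun_prop, fun u v huv => ?_⟩, fun y => ?_, fun t => ?_,
    by simpa using h⟩
  · rw [d, d, ← mul_sub, mul_div_cancel_right₀ _ (sub_ne_zero.2 huv)]; exact ⟨h1, h2⟩
  · have : 0 ≤ a := h0.trans h1
    simp only [ne_eq, OfNat.ofNat_ne_zero, not_false_eq_true, zero_pow, mul_zero]; positivity
  · rw [d, hx]; ring

theorem root {s β y : ℝ} (h : y ^ 2 - s * y + β ≤ 0) :
    (∃ z, y ≤ z ∧ z ^ 2 = s * z - β) ∧ ∃ z, z ≤ y ∧ z ^ 2 = s * z - β := by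
  have a : (2 * y - s) ^ 2 ≤ s ^ 2 - 4 * β := by nlinarith
  have b := abs_le.1 (Real.abs_le_sqrt a)
  have c := Real.sq_sqrt (le_trans (sq_nonneg _) a)
  exact ⟨⟨(s + √(s ^ 2 - 4 * β)) / 2, by linarith [b.2], by linear_combination c / 4⟩,
    (s - √(s ^ 2 - 4 * β)) / 2, by linarith [b.1], by linear_combination c / 4⟩

theorem slow_root {μ γ β r a z : ℝ} (h0 : 0 ≤ μ) (h1 : μ ≤ a) (h2 : a ≤ 1) (hr : 0 ≤ r)
    (hz : r ≤ |z|) (h : z ^ 2 = (1 + β - γ * a) * z - β) : Slow μ γ β r :=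
  quad h0 h1 h2 (z ^ ·) (fun t => by linear_combination z ^ t * h)
    (.of_forall fun t => by rw [abs_pow]; exact pow_le_pow_left₀ hr hz t)

theorem slow_big {μ γ β r : ℝ} (h0 : 0 ≤ μ) (h1 : μ ≤ 1) (hr : 0 < r) (h : r ^ 2 < β) :
    Slow μ γ β r := by
  set s := 1 + β - γ * 1
  let p : ℕ → ℝ × ℝ := fun t => (fun q : ℝ × ℝ => (q.2, s * q.2 - β * q.1))^[t] (1, 0)
  have ps : ∀ t, p (t + 1) = ((p t).2, s * (p t).2 - β * (p t).1) := fun t =>
    Function.iterate_succ_apply' _ _ _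
  have q : ∀ t, (p t).2 ^ 2 - s * (p t).2 * (p t).1 + β * (p t).1 ^ 2 = β ^ (t + 1) := by
    intro t
    induction t with
    | zero => simp [p]
    | succ t ih => rw [ps, pow_succ β, ← ih]; ring
  refine quad h0 h1 le_rfl (fun t => (p t).1) (fun t => by simp only [ps, s]) ?_
  by_contra c
  rw [not_frequently] at c
  have b0 : 0 < β := lt_trans (by positivity) h
  have t1 := tendsto_pow_atTop_atTop_of_one_lt ((one_lt_div (by positivity)).2 h)
  obtain ⟨t, a1, a2, a3⟩ := (c.and (((tendsto_add_atTop_nat 1).eventually c).and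
    (t1.eventually_gt_atTop ((r ^ 2 + |s| * r + β) / β)))).exists
  rw [not_le] at a1 a2
  rw [ps] at a2
  rw [div_pow, div_lt_div_iff₀ b0 (by positivity), ← pow_succ, ← q] at a3
  have e1 := pow_le_pow_left₀ (abs_nonneg _) a1.le 2
  have e2 := pow_le_pow_left₀ (abs_nonneg _) a2.le 2
  have e3 := mul_le_mul_of_nonneg_left (mul_le_mul a2.le a1.le (abs_nonneg _) (by positivity))
    (abs_nonneg s)
  have e4 := neg_abs_le (s * (p t).2 * (p t).1)
  rw [abs_mul, abs_mul, mul_assoc] at e4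
  rw [sq_abs] at e1 e2
  have e5 := mul_le_mul_of_nonneg_left e1 b0.le
  have e6 : (r ^ 2 + |s| * r + β) * (r ^ 2) ^ t =
      (r ^ (t + 1)) ^ 2 + |s| * (r ^ (t + 1) * r ^ t) + β * (r ^ t) ^ 2 := by ring
  simp only at e2 e3
  linarith

theorem lip (A : Set (ℝ × ℝ)) (hA : A.Finite) (h : ∀ p ∈ A, ∀ q ∈ A, p.1 = q.1 → p.2 = q.2) :
    ∃ (P : ℝ → ℝ) (Λ : NNReal), LipschitzWith Λ P ∧ ∀ p ∈ A, P p.1 = p.2 := by
  obtain ⟨C, hC⟩ := ((hA.prod hA).image fun p => |p.1.2 - p.2.2| / |p.1.1 - p.2.1|).bddAbove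
  have : ∀ u, ∃ v, ∀ p ∈ A, p.1 = u → v = p.2 := fun u => by
    by_cases c : ∃ q ∈ A, q.1 = u
    · obtain ⟨q, q1, q2⟩ := c
      exact ⟨q.2, fun p p1 p2 => h q q1 p p1 (q2.trans p2.symm)⟩
    · exact ⟨0, fun p p1 p2 => absurd ⟨p, p1, p2⟩ c⟩
  choose g hg using this
  have : LipschitzOnWith C.toNNReal g (Prod.fst '' A) := LipschitzOnWith.of_dist_le' <| by
    rintro _ ⟨p, hp, rfl⟩ _ ⟨q, hq, rfl⟩
    rw [hg _ p hp rfl, hg _ q hq rfl, Real.dist_eq, Real.dist_eq]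
    by_cases c : p.1 = q.1
    · simp [c, h p hp q hq c]
    · exact (div_le_iff₀ (abs_pos.2 (sub_ne_zero.2 c))).1 (hC ⟨(p, q), ⟨hp, hq⟩, rfl⟩)
  obtain ⟨P, h1, h2⟩ := this.extend_real
  exact ⟨P, _, h1, fun p hp => (h2 ⟨p, hp, rfl⟩).symm.trans (hg _ p hp rfl)⟩

theorem orbit {M : ℝ} (hM : 0 < M) : ∃ (w : ℝ) (K : ℕ) (x : ℕ → ℝ) (P : ℝ → ℝ) (Λ : NNReal),
    0 < w ∧ w ≤ M ∧ 0 < K ∧ Function.Periodic x K ∧ x 0 ≠ x 1 ∧ LipschitzWith Λ P ∧
      (∀ t, P (x (t + 1)) = x t) ∧ ∀ t, x (t + 2) = (2 - w) * x (t + 1) - x t := by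
  obtain ⟨K, hK⟩ := exists_nat_gt (max 2 (64 / M))
  have k2 : (2 : ℝ) < K := (le_max_left _ _).trans_lt hK
  have k3 : 64 / M < K := (le_max_right _ _).trans_lt hK
  set θ := 2 * π / K with hθ
  have k0 : (0 : ℝ) < K := by linarith
  have t0 : 0 < θ := by positivity
  have tK : θ * K = 2 * π := by rw [hθ]; field_simp
  have t1 : θ < π := by nlinarith [pi_pos]
  let x : ℕ → ℝ := fun t => cos (θ * (t + 1 / 4))
  have per : Function.Periodic x K := fun t => by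
    simp only [x, Nat.cast_add]
    rw [← cos_add_two_pi (θ * (t + 1 / 4)), ← tK]; congr 1; ring
  have inj : ∀ s t : ℕ, x s = x t → ∃ k : ℤ, (t : ℝ) = k * K + s := fun s t h => by
    obtain ⟨k, h | h⟩ := cos_eq_cos_iff.1 h
    · exact ⟨k, mul_left_cancel₀ t0.ne' (by linear_combination h - k * tK)⟩
    · have : (2 : ℝ) * (k * K - s - t) = 1 :=
        mul_left_cancel₀ t0.ne' (by linear_combination -2 * h + 2 * k * tK)
      have : (2 : ℤ) * (k * K - s - t) = 1 := by exact_mod_cast this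
      omega
  obtain ⟨P, Λ, h1, h2⟩ := lip (Set.range fun t => (x (t + 1), x t))
    ((((Set.finite_Iio K).image fun t => (x (t + 1), x t))).subset (by
      rintro _ ⟨t, rfl⟩
      refine ⟨t % K, Nat.mod_lt _ (by exact_mod_cast k0), ?_⟩
      exact Function.Periodic.map_mod_nat (f := fun t => (x (t + 1), x t))
        (fun t => by simp only [add_right_comm t K 1, per _]) t))
    (by
      rintro _ ⟨s, rfl⟩ _ ⟨t, rfl⟩ h
      obtain ⟨k, hk⟩ := inj _ _ h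
      push_cast at hk
      simp only [x]
      rw [← cos_add_int_mul_two_pi _ k, ← tK]
      congr 1
      linear_combination -θ * hk)
  refine ⟨2 - 2 * cos θ, K, x, P, Λ, ?_, ?_, by exact_mod_cast k0, per, fun h => ?_, h1,
    fun t => h2 _ ⟨t, rfl⟩, fun t => ?_⟩
  · linarith [cos_lt_cos_of_nonneg_of_le_pi le_rfl t1.le t0, cos_zero]
  · have a := one_sub_sq_div_two_le_cos (x := θ)
    have b : θ * K ≤ 8 := by linarith [pi_le_four]
    rw [div_lt_iff₀ hM] at k3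
    have c : θ ^ 2 * K ^ 2 ≤ 64 := by nlinarith [mul_pos t0 k0]
    have d : θ ^ 2 * K ^ 2 ≤ M * K ^ 2 := by nlinarith
    linarith [le_of_mul_le_mul_right d (by positivity)]
  · obtain ⟨k, hk⟩ := inj _ _ h
    have : (1 : ℤ) = k * K := by exact_mod_cast (by simpa using hk : (1 : ℝ) = k * K)
    have : (K : ℤ) ∣ 1 := ⟨k, by linarith⟩
    have := Int.le_of_dvd one_pos this
    have : (2 : ℤ) < K := by exact_mod_cast k2
    omega
  · simp only [x]
    push_cast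
    rw [show θ * (t + 2 + 1 / 4) = θ * (t + 1 + 1 / 4) + θ by ring,
      show θ * (t + 1 / 4) = θ * (t + 1 + 1 / 4) - θ by ring, cos_add, cos_sub]
    ring

theorem prim {μ : ℝ} (hμ : 0 < μ) (φ : ℝ → ℝ) (hφ : Continuous φ)
    (h : ∀ x y, x ≠ y → μ ≤ (φ x - φ y) / (x - y) ∧ (φ x - φ y) / (x - y) ≤ 1) :
    ∃ f xs, Cls μ 1 f ∧ (∀ y, f xs ≤ f y) ∧ deriv f = φ := by
  have d : ∀ y, HasDerivAt (fun u => ∫ t in (0 : ℝ)..u, φ t) (φ y) y := fun y =>
    (hφ.integral_hasStrictDerivAt 0 y).hasDerivAt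
  have e : deriv (fun u => ∫ t in (0 : ℝ)..u, φ t) = φ := funext fun y => (d y).deriv
  have m : ∀ x y, y < x → μ * (x - y) ≤ φ x - φ y := fun x y hxy =>
    (le_div_iff₀ (sub_pos.2 hxy)).1 (h x y hxy.ne').1
  have p : 0 < |φ 0| / μ + 1 := by positivity
  have q : μ * (|φ 0| / μ + 1) = |φ 0| + μ := by field_simp
  obtain ⟨xs, -, hx⟩ := intermediate_value_Icc (show -(|φ 0| / μ + 1) ≤ |φ 0| / μ + 1 by linarith)
    hφ.continuousOn (show (0 : ℝ) ∈ _ from ⟨by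
      have := m 0 (-(|φ 0| / μ + 1)) (by linarith); linarith [le_abs_self (φ 0)],
      by have := m _ 0 p; linarith [neg_abs_le (φ 0)]⟩)
  refine ⟨_, xs, ⟨fun y => (d y).differentiableAt, by rw [e]; exact h⟩, fun y => ?_, e⟩
  have cv : ConvexOn ℝ Set.univ fun u => ∫ t in (0 : ℝ)..u, φ t :=
    Monotone.convexOn_univ_of_deriv (fun y => (d y).differentiableAt) (by
      rw [e]
      exact StrictMono.monotone fun u v huv => by linarith [m v u huv, mul_pos hμ (sub_pos.2 huv)])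
  exact cv.isMinOn_of_rightDeriv_eq_zero (x := xs) (by simp)
    (((d xs).hasDerivWithinAt.derivWithin (uniqueDiffWithinAt_Ioi xs)).trans hx) (Set.mem_univ y)

theorem cycle {M : ℝ} (hM : 0 < M) : ∃ δ > 0, ∀ μ γ β r : ℝ, 0 < μ → μ ≤ δ → M ≤ γ → γ ≤ 4 →
    1 - δ ≤ β → β ≤ 1 → 0 ≤ r → r < 1 → Slow μ γ β r := by
  obtain ⟨w, K, x, P, Λ, w0, w1, k0, per, ne, hP, h1, h2⟩ := orbit (half_pos hM)
  have l0 : (0 : ℝ) < 1 + Λ := by positivity
  refine ⟨w / 8 / (1 + Λ), by positivity, fun μ γ β r m0 m1 g1 g2 b1 b2 r0 r1 => ?_⟩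
  have g0 : 0 < γ := by linarith
  have a1 : (1 - β) * (1 + Λ) ≤ w / 8 := (le_div_iff₀ l0).1 (by linarith)
  have a2 : μ ≤ w / 8 := m1.trans (div_le_self (by positivity) (by simp))
  have := hP.continuous
  obtain ⟨f, xs, f1, f2, f3⟩ := prim m0 (fun y => (w * y - (1 - β) * (y - P y)) / γ) (by fun_prop)
    fun u v huv => by
      have n : u - v ≠ 0 := sub_ne_zero.2 huv
      have b : |(P u - P v) / (u - v)| ≤ Λ := by
        rw [abs_div, div_le_iff₀ (abs_pos.2 n)]; exact hP.dist_le_mul u v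
      have e : ((w * u - (1 - β) * (u - P u)) / γ - (w * v - (1 - β) * (v - P v)) / γ) / (u - v) =
          (w - (1 - β) * (1 - (P u - P v) / (u - v))) / γ := by field_simp; ring
      rw [e, le_div_iff₀ g0, div_le_iff₀ g0]
      have := mul_le_mul_of_nonneg_left (abs_le.1 b).1 (sub_nonneg.2 b2)
      have := mul_le_mul_of_nonneg_left (abs_le.1 b).2 (sub_nonneg.2 b2)
      constructor <;> nlinarith
  refine ⟨f, xs, x, f1, f2, fun t => ?_, ?_⟩
  · rw [f3, h2]; beta_reduce; rw [h1]; field_simp; ring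
  · obtain ⟨i, hi⟩ : ∃ i, x i ≠ xs := by
      by_contra c
      push Not at c
      exact ne ((c 0).trans (c 1).symm)
    refine (Frequently.and_eventually (p := fun t => x t = x i) (frequently_atTop.2 fun n =>
      ⟨i + n * K, by nlinarith, per.nat_mul n i⟩) ((tendsto_pow_atTop_nhds_zero_of_lt_one r0 r1).eventually
        (ge_mem_nhds (abs_pos.2 (sub_ne_zero.2 hi))))).mono fun t ht => ?_
    rw [ht.1]; exact ht.2

theorem main {c : ℝ} (hc : 0 < c) : ∃ η > 0, ∀ e : ℝ, 0 < e → e ≤ η → ∀ γ β : ℝ, 0 < γ →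
    Slow (e ^ 2) γ β (1 - c * e / 2) := by
  obtain ⟨δ, d0, hδ⟩ := cycle (show 0 < c ^ 2 / 16 by positivity)
  refine ⟨min (min 1 δ) (min (min 1 δ / c) (c * δ / 16)), by positivity, fun e e0 he γ β g0 => ?_⟩
  simp only [le_min_iff, le_div_iff₀ hc] at he
  obtain ⟨⟨e1, e2⟩, e3, e4⟩ := he
  have e5 : c * e ≤ 1 ∧ c * e ≤ δ := by rwa [mul_comm] at e3
  have p : 0 < c * e := by positivity
  have m1 : e ^ 2 ≤ 1 := by nlinarith
  have r0 : 0 < 1 - c * e / 2 := by linarith [e5.1]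
  by_cases a : (1 - c * e / 2) ^ 2 < β
  · exact slow_big (by positivity) m1 r0 a
  have b : β ≤ 1 - c * e / 2 := by nlinarith
  by_cases a1 : 2 + 2 * β < γ
  · obtain ⟨z, z1, z2⟩ := (root (s := 1 + β - γ * 1) (β := β) (y := -1) (by linarith)).2
    exact slow_root (by positivity) m1 le_rfl r0.le (by linarith [neg_le_abs z]) z2
  have g4 : γ ≤ 4 := by linarith
  by_cases a2 : γ ≤ c ^ 2 / 16
  · obtain ⟨z, z1, z2⟩ := (root (s := 1 + β - γ * e ^ 2) (β := β) (y := 1 - c * e / 4) (by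
      have := mul_le_mul_of_nonneg_right a2 (sq_nonneg e)
      have : 0 ≤ γ * e ^ 2 * (c * e) := by positivity
      nlinarith)).1
    exact slow_root (by positivity) le_rfl m1 r0.le (by linarith [le_abs_self z]) z2
  by_cases a3 : β ≤ 1 - δ
  · obtain ⟨z, z1, z2⟩ := (root (s := 1 + β - γ * e ^ 2) (β := β) (y := 1 - c * e / 2) (by
      have := mul_le_mul_of_nonneg_right g4 (sq_nonneg e)
      have : 0 ≤ γ * e ^ 2 * (c * e) := by positivity
      have := mul_le_mul_of_nonneg_left e4 e0.le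
      have := mul_le_mul_of_nonneg_left e5.2 p.le
      have := mul_le_mul_of_nonneg_left a3 p.le
      nlinarith)).1
    exact slow_root (by positivity) le_rfl m1 r0.le (by linarith [le_abs_self z]) z2
  exact hδ _ _ _ _ (by positivity) (by nlinarith) (by linarith) g4 (by linarith) (by linarith) r0.le
    (by linarith)

theorem result : ∀ γ β : ℝ → ℝ → ℝ, (∀ μ L, 0 < μ → μ < L → 0 < γ μ L) →
    ∀ c κ : ℝ, 0 < c → 0 < κ → κ < 1 → ∃ μ L : ℝ, 0 < μ ∧ μ < L ∧ μ / L ≤ κ ∧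
      ∃ (f : ℝ → ℝ) (xs : ℝ) (x : ℕ → ℝ), Cls μ L f ∧ (∀ y, f xs ≤ f y) ∧ HB (γ μ L) (β μ L) f x ∧
        ((1 - c * √(μ / L) : ℝ) : EReal) <
          limsup (fun t : ℕ => ((|x t - xs| ^ (1 / (t : ℝ)) : ℝ) : EReal)) atTop := by
  intro γ β hγ c κ hc k0 k1
  obtain ⟨η, h0, h⟩ := main hc
  set e := min η (min κ (1 / c)) with he
  have e0 : 0 < e := by positivity
  have e1 : e ≤ κ := (min_le_right _ _).trans (min_le_left _ _)
  have e2 : e * c ≤ 1 := (le_div_iff₀ hc).1 ((min_le_right _ _).trans (min_le_right _ _))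
  have m : e ^ 2 < 1 := by nlinarith
  obtain ⟨f, xs, x, f1, f2, f3, f4⟩ := h e e0 (min_le_left _ _) _ (β (e ^ 2) 1)
    (hγ _ 1 (by positivity) m)
  refine ⟨e ^ 2, 1, by positivity, m, by nlinarith, f, xs, x, f1, f2, f3,
    lt_of_lt_of_le (b := ((1 - c * e / 2 : ℝ) : EReal)) ?_ (le_limsup_of_frequently_le' ?_)⟩
  · rw [EReal.coe_lt_coe_iff, div_one, Real.sqrt_sq e0.le]; linarith [mul_pos hc e0]
  · refine (f4.and_eventually (eventually_ne_atTop 0)).mono fun t ht => EReal.coe_le_coe_iff.2 ?_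
    have r0 : 0 ≤ 1 - c * e / 2 := by linarith
    rw [← pow_rpow_inv_natCast r0 ht.2, one_div]
    exact rpow_le_rpow (by positivity) ht.1 (by positivity)

end Pool.Agent.Results.MP_a6d20f_an.NoAcceleration
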